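import Pool.Agent.K3h71.PP.Defs

/-!
# Brick JAC of helper71: the Jacobian criterion
-/

set_option autoImplicit false

namespace Pool.Agent.K3h16.PP

open Polynomial Pool.Agent.K3h82.CP Pool.Agent.K3h71.PP

section dXlemmas

variable {R : Type} [CommRing R]

lemma coeff_dX (A : R[X][X]) (j : ℕ) : (dX A).coeff j = derivative (A.coeff j) := by
  unfold dX
  rw [Polynomial.sum_def, Polynomial.finsetSum_coeff]
  simp only [coeff_C_mul, coeff_X_pow, mul_ite, mul_one, mul_zero]
  rw [Finset.sum_ite_eq]
  by_cases h : j ∈ A.support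
  · rw [if_pos h]
  · rw [if_neg h, Polynomial.notMem_support_iff.mp h, derivative_zero]

lemma dX_add (A B : R[X][X]) : dX (A + B) = dX A + dX B := by
  ext1 j
  rw [coeff_add, coeff_dX, coeff_dX, coeff_dX, coeff_add, derivative_add]

lemma dX_sub (A B : R[X][X]) : dX (A - B) = dX A - dX B := by
  ext1 j
  rw [coeff_sub, coeff_dX, coeff_dX, coeff_dX, coeff_sub, derivative_sub]

lemma dX_mul (A B : R[X][X]) : dX (A * B) = dX A * B + A * dX B := by
  ext1 j
  rw [coeff_add, coeff_dX, coeff_mul, coeff_mul, coeff_mul, derivative_sum,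
    ← Finset.sum_add_distrib]
  apply Finset.sum_congr rfl
  intro x _
  rw [derivative_mul, coeff_dX, coeff_dX]

lemma dX_C (p : R[X]) : dX (C p) = C (derivative p) := by
  ext1 j
  rw [coeff_dX, coeff_C, coeff_C]
  split_ifs
  · rfl
  · exact derivative_zero

/-- derivatives of elements of `m²` are in `m` -/
lemma dX_sq {m : Ideal R[X][X]} {g : R[X][X]} (hg : g ∈ m ^ 2) : dX g ∈ m := by
  rw [pow_two] at hg
  refine Submodule.mul_induction_on hg ?_ ?_
  · intro a ha b hb
    rw [dX_mul]
    exact m.add_mem (m.mul_mem_left _ hb) (m.mul_mem_right _ ha)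
  · intro a b ha hb
    rw [dX_add]
    exact m.add_mem ha hb

lemma der_sq {m : Ideal R[X][X]} {g : R[X][X]} (hg : g ∈ m ^ 2) : derivative g ∈ m := by
  rw [pow_two] at hg
  refine Submodule.mul_induction_on hg ?_ ?_
  · intro a ha b hb
    rw [derivative_mul]
    exact m.add_mem (m.mul_mem_left _ hb) (m.mul_mem_right _ ha)
  · intro a b ha hb
    rw [derivative_add]
    exact m.add_mem ha hb

end dXlemmas

/-- the maximal ideals of `K[X, Y]` -/
lemma max_struct {K : Type} [Field K] [CharZero K] (m : Ideal K[X][X]) [hm : m.IsMaximal] :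
    ∃ (π : K[X]) (h : K[X][X]), C π ∈ m ∧ h ∈ m ∧ C (derivative π) ∉ m ∧ derivative h ∉ m ∧
      ∀ g ∈ m, ∃ a b : K[X][X], g = a * C π + b * h := by
  classical
  set m0 : Ideal K[X] := m.comap (C : K[X] →+* K[X][X]) with hm0
  have hmax : m0.IsMaximal := isMaximal_comap_C_of_isJacobsonRing m
  have hne : m0 ≠ ⊥ := Ring.ne_bot_of_isMaximal_of_not_isField hmax (Polynomial.not_isField K)
  set π : K[X] := Submodule.IsPrincipal.generator m0 with hπ
  have hspan : Ideal.span {π} = m0 := Ideal.span_singleton_generator m0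
  have hprime : Prime π := by
    have := hmax.isPrime
    exact Submodule.IsPrincipal.prime_generator_of_isPrime m0 hne
  have hπm : C π ∈ m := by
    have : π ∈ m0 := Submodule.IsPrincipal.generator_mem m0
    exact this
  have hsepπ : IsCoprime π (derivative π) := hprime.irreducible.separable
  have hπ' : C (derivative π) ∉ m := by
    intro h
    obtain ⟨a, b, hab⟩ := hsepπ
    apply hm.ne_top
    rw [Ideal.eq_top_iff_one]
    have h1 : (1 : K[X][X]) = C a * C π + C b * C (derivative π) := by
      rw [← C_mul, ← C_mul, ← C_add, hab, C_1]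
    rw [h1]
    exact m.add_mem (m.mul_mem_left _ hπm) (m.mul_mem_left _ h)
  -- the residue field of `m0`
  let _ : Field (K[X] ⧸ m0) := Ideal.Quotient.field m0
  have : CharZero (K[X] ⧸ m0) :=
    charZero_of_injective_ringHom (f := (Ideal.Quotient.mk m0).comp (C : K →+* K[X]))
      (RingHom.injective _)
  set f : K[X][X] →+* (K[X] ⧸ m0)[X] := mapRingHom (Ideal.Quotient.mk m0) with hf
  have hfs : Function.Surjective f := map_surjective _ Ideal.Quotient.mk_surjective
  have hker : ∀ g : K[X][X], f g = 0 → ∃ a : K[X][X], g = a * C π := by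
    intro g hg
    have h1 : g ∈ RingHom.ker f := hg
    rw [hf, Polynomial.ker_mapRingHom, Ideal.mk_ker, ← hspan, Ideal.map_span,
      Set.image_singleton, Ideal.mem_span_singleton] at h1
    obtain ⟨a, ha⟩ := h1
    exact ⟨a, by rw [ha, mul_comm]⟩
  have hkm : RingHom.ker f ≤ m := by
    intro g hg
    obtain ⟨a, ha⟩ := hker g hg
    rw [ha]
    exact m.mul_mem_left _ hπm
  have hmb : (m.map f).IsMaximal := Ideal.IsMaximal.map_of_surjective_of_ker_le hfs hkm
  have hmbne : m.map f ≠ ⊥ :=
    Ring.ne_bot_of_isMaximal_of_not_isField hmb (Polynomial.not_isField _)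
  set hb : (K[X] ⧸ m0)[X] := Submodule.IsPrincipal.generator (m.map f) with hhb
  have hspanb : Ideal.span {hb} = m.map f := Ideal.span_singleton_generator (m.map f)
  have hprimeb : Prime hb := by
    have := hmb.isPrime
    exact Submodule.IsPrincipal.prime_generator_of_isPrime (m.map f) hmbne
  have hsepb : IsCoprime hb (derivative hb) := hprimeb.irreducible.separable
  have hbm : hb ∈ m.map f := Submodule.IsPrincipal.generator_mem (m.map f)
  rw [Ideal.mem_map_iff_of_surjective f hfs] at hbm
  obtain ⟨h, hhm, hh⟩ := hbm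
  refine ⟨π, h, hπm, hhm, hπ', ?_, ?_⟩
  · intro hd
    obtain ⟨a, b, hab⟩ := hsepb
    apply hmb.ne_top
    rw [Ideal.eq_top_iff_one, ← hab]
    have h1 : derivative hb = f (derivative h) := by
      rw [← hh, hf, coe_mapRingHom, derivative_map]
    apply Ideal.add_mem
    · apply Ideal.mul_mem_left
      exact Submodule.IsPrincipal.generator_mem (m.map f)
    · apply Ideal.mul_mem_left
      rw [h1]
      exact Ideal.mem_map_of_mem f hd
  · intro g hg
    have h1 : f g ∈ m.map f := Ideal.mem_map_of_mem f hg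
    rw [← hspanb, Ideal.mem_span_singleton] at h1
    obtain ⟨c, hc⟩ := h1
    obtain ⟨b, hb'⟩ := hfs c
    obtain ⟨a, ha⟩ := hker (g - b * h) (by
      rw [map_sub, map_mul, hb', hh, hc, mul_comm, sub_self])
    exact ⟨a, b, by rw [← ha]; ring⟩

theorem t_Jac : StmJac := by
  intro K _ _ F _ _ hD
  by_contra hcon
  -- the ideal is proper
  have hproper : (Ideal.span {F, dX F, derivative F} : Ideal K[X][X]) ≠ ⊤ := by
    intro h
    rw [Ideal.eq_top_iff_one, Ideal.mem_span_insert] at h
    obtain ⟨u, z, hz, hu⟩ := h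
    rw [Ideal.mem_span_pair] at hz
    obtain ⟨v, w, hvw⟩ := hz
    apply hcon
    exact ⟨u, v, w, by rw [hu, ← hvw]; ring⟩
  obtain ⟨m, hm, hle⟩ := Ideal.exists_le_maximal _ hproper
  have hF : F ∈ m := hle (Ideal.subset_span (by simp))
  have hF1 : dX F ∈ m := hle (Ideal.subset_span (by simp))
  have hF2 : derivative F ∈ m := hle (Ideal.subset_span (by simp))
  obtain ⟨π, h, hπ, hh, hπ', hh', hgen⟩ := max_struct m
  obtain ⟨a, b, hab⟩ := hgen F hF
  have hprime := hm.isPrime
  -- `b ∈ m`
  have hb : b ∈ m := by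
    have h1 : derivative F = derivative a * C π + (derivative b * h + b * derivative h) := by
      rw [hab, derivative_add, derivative_mul, derivative_mul, derivative_C, mul_zero, add_zero]
    have h2 : b * derivative h ∈ m := by
      have h3 : b * derivative h = derivative F - derivative a * C π - derivative b * h := by
        rw [h1]; ring
      rw [h3]
      exact m.sub_mem (m.sub_mem hF2 (m.mul_mem_left _ hπ)) (m.mul_mem_left _ hh)
    exact (hprime.mem_or_mem h2).resolve_right hh'
  have ha : a ∈ m := by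
    have h1 : dX F = dX a * C π + a * C (derivative π) + (dX b * h + b * dX h) := by
      rw [hab, dX_add, dX_mul, dX_mul, dX_C]
    have h2 : a * C (derivative π) ∈ m := by
      have h3 : a * C (derivative π) = dX F - dX a * C π - dX b * h - b * dX h := by
        rw [h1]; ring
      rw [h3]
      exact m.sub_mem (m.sub_mem (m.sub_mem hF1 (m.mul_mem_left _ hπ)) (m.mul_mem_left _ hh))
        (m.mul_mem_right _ hb)
    exact (hprime.mem_or_mem h2).resolve_right hπ'
  have hFsq : F ∈ m ^ 2 := by
    rw [hab, pow_two]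
    exact Ideal.add_mem _ (Ideal.mul_mem_mul ha hπ) (Ideal.mul_mem_mul hb hh)
  -- the Dedekind domain
  let q : K[X][X] →+* AdjoinRoot F := AdjoinRoot.mk F
  have hqs : Function.Surjective q := AdjoinRoot.mk_surjective
  have hqk : ∀ g, q g = 0 → g ∈ m ^ 2 := by
    intro g hg
    obtain ⟨c, hc⟩ := AdjoinRoot.mk_eq_zero.mp hg
    rw [hc]
    exact Ideal.mul_mem_right _ _ hFsq
  have hkm : RingHom.ker q ≤ m := by
    intro g hg
    exact Ideal.pow_le_self two_ne_zero (hqk g hg)
  have hmax : (m.map q).IsMaximal := Ideal.IsMaximal.map_of_surjective_of_ker_le hqs hkm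
  have hP := hmax.isPrime
  have hpull : ∀ g, q g ∈ (m.map q) ^ 2 → g ∈ m ^ 2 := by
    intro g hg
    rw [← Ideal.map_pow, Ideal.mem_map_iff_of_surjective q hqs] at hg
    obtain ⟨c, hc, hcg⟩ := hg
    have h1 : g - c ∈ m ^ 2 := hqk _ (by rw [map_sub, hcg, sub_self])
    have h2 : g = (g - c) + c := by ring
    rw [h2]
    exact Ideal.add_mem _ h1 hc
  have hπ2 : C π ∉ m ^ 2 := by
    intro h1
    have h2 := dX_sq h1
    rw [dX_C] at h2
    exact hπ' h2
  have hPne : m.map q ≠ ⊥ := by
    intro h1
    have h2 : q (C π) ∈ m.map q := Ideal.mem_map_of_mem q hπ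
    rw [h1, Ideal.mem_bot] at h2
    exact hπ2 (hqk _ h2)
  obtain ⟨d, e, he, hde⟩ := Ideal.exists_mul_add_mem_pow_succ (P := m.map q) hPne (i := 1)
    (q (C π)) (q h) (by rw [pow_one]; exact Ideal.mem_map_of_mem q hπ)
    (fun h1 => hπ2 (hpull _ h1)) (by rw [pow_one]; exact Ideal.mem_map_of_mem q hh)
  obtain ⟨d', rfl⟩ := hqs d
  have h1 : h - C π * d' ∈ m ^ 2 := by
    apply hpull
    rw [map_sub, map_mul, ← hde, add_sub_cancel_left]
    exact he
  have h2 := der_sq h1
  rw [derivative_sub, derivative_mul, derivative_C, zero_mul, zero_add] at h2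
  apply hh'
  have h3 : derivative h = (derivative h - C π * derivative d') + C π * derivative d' := by ring
  rw [h3]
  exact m.add_mem h2 (m.mul_mem_right _ hπ)

end Pool.Agent.K3h16.PP
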